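import Pool.Agent.Helper51.PP.GoalsA2b

set_option autoImplicit false

namespace Pool.Agent.Helper2.PP

open Finset Pool.Agent.Helper51.PP
open Pool.Agent.Helper17.PP (Sys)

open Classical in
theorem card_sections {B B₀ : Type} (bs : B → B₀) (ℓ : ℕ)
    (h : ∀ b₀ : B₀, {q | bs q = b₀}.Finite ∧ {q | bs q = b₀}.ncard ≤ ℓ) (T : Finset B₀)
    (𝒟 : Finset (Finset B))
    (hD : ∀ D' ∈ 𝒟, Set.InjOn bs (D' : Set B) ∧ D'.image bs = T) : 𝒟.card ≤ ℓ ^ T.card := by
  let Fb : B₀ → Finset B := fun b₀ => (h b₀).1.toFinset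
  have hFb : ∀ b₀, (Fb b₀).card ≤ ℓ := by
    intro b₀
    have := (h b₀).2
    rwa [Set.ncard_eq_toFinset_card _ (h b₀).1] at this
  let Φ : (∀ a ∈ T, B) → Finset B := fun φ => T.attach.image (fun x => φ x.1 x.2)
  have hsub : 𝒟 ⊆ (T.pi Fb).image Φ := by
    intro D' hD'
    obtain ⟨hi, him⟩ := hD D' hD'
    have hex : ∀ a ∈ T, ∃ q ∈ D', bs q = a := by
      intro a ha
      rw [← him, Finset.mem_image] at ha
      exact ha
    choose φ h1 h2 using hex
    rw [Finset.mem_image]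
    refine ⟨φ, ?_, ?_⟩
    · rw [Finset.mem_pi]
      intro a ha
      simp only [Fb, Set.Finite.mem_toFinset, Set.mem_ofPred_eq]
      exact h2 a ha
    · ext q
      simp only [Φ, Finset.mem_image, Finset.mem_attach, true_and, Subtype.exists]
      constructor
      · rintro ⟨a, ha, rfl⟩
        exact h1 a ha
      · intro hq
        have ha : bs q ∈ T := by rw [← him]; exact Finset.mem_image_of_mem _ hq
        exact ⟨bs q, ha, hi (h1 _ ha) hq (h2 _ ha)⟩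
  calc 𝒟.card ≤ ((T.pi Fb).image Φ).card := Finset.card_le_card hsub
    _ ≤ (T.pi Fb).card := Finset.card_image_le
    _ = ∏ a ∈ T, (Fb a).card := Finset.card_pi _ _
    _ ≤ ∏ _a ∈ T, ℓ := Finset.prod_le_prod' (fun a _ => hFb a)
    _ = ℓ ^ T.card := by rw [Finset.prod_const]

theorem a2_fib : A2_FIB := by
  classical
  intro p B B₀ k U Λ C _ _ _ _ _ _ S ℓ h
  set L : ℕ := max ℓ 1 with hL
  have hL1 : 1 ≤ L := le_max_right _ _
  have hℓL : ℓ ≤ L := le_max_left _ _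
  set A : ℕ := max 2 (L ^ 4) with hA
  have hA2 : 2 ≤ A := le_max_left _ _
  have hLA : L ^ 4 ≤ A := le_max_right _ _
  set n : ℕ := (S.upto (A : ℝ)).card with hn
  refine ⟨(L : ℝ) ^ n * (2 : ℝ) ^ ((1 : ℝ) / 4), by positivity, fun i D 𝒟 hDi h𝒟 => ?_⟩
  -- the count
  have c1 : 𝒟.card ≤ ℓ ^ (D.image S.bs).card := card_sections S.bs ℓ h (D.image S.bs) 𝒟 h𝒟
  have c2 : ℓ ^ (D.image S.bs).card ≤ L ^ D.card :=
    (Nat.pow_le_pow_left hℓL _).trans (Nat.pow_le_pow_right hL1 Finset.card_image_le)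
  -- the large elements
  set D1 : Finset B := D \ S.upto (A : ℝ) with hD1
  have c3 : D.card ≤ D1.card + n := by
    have := Finset.card_le_card_sdiff_add_card (s := D) (t := S.upto (A : ℝ))
    simpa [hD1, hn] using this
  have hbig : ∀ q ∈ D1, A ≤ S.N q := by
    intro q hq
    rw [hD1, Finset.mem_sdiff] at hq
    have h2 := hq.2
    unfold Sys.upto at h2
    rw [Set.Finite.mem_toFinset, Set.mem_ofPred_eq, Nat.floor_natCast, not_le] at h2
    exact h2.le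
  have c4 : A ^ D1.card ≤ S.nm D := by
    calc A ^ D1.card = ∏ _q ∈ D1, A := by rw [Finset.prod_const]
      _ ≤ ∏ q ∈ D1, S.N q := Finset.prod_le_prod' hbig
      _ ≤ ∏ q ∈ D, S.N q :=
          Finset.prod_le_prod_of_subset_of_one_le' Finset.sdiff_subset
            (fun q _ _ => by have := S.two_le q; omega)
      _ = S.nm D := rfl
  have c5 : S.nm D < 2 ^ (i + 1) := by
    unfold Sys.mods at hDi
    rw [Finset.mem_filter] at hDi
    have := Nat.lt_pow_succ_log_self (b := 2) (by norm_num) (S.nm D)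
    rwa [hDi.2] at this
  have c6 : ((L : ℝ) ^ D1.card) ^ 4 ≤ (2 : ℝ) ^ (i + 1) := by
    have e1 : (L ^ D1.card) ^ 4 ≤ 2 ^ (i + 1) := by
      calc (L ^ D1.card) ^ 4 = (L ^ 4) ^ D1.card := by rw [← pow_mul, ← pow_mul, mul_comm]
        _ ≤ A ^ D1.card := Nat.pow_le_pow_left hLA _
        _ ≤ 2 ^ (i + 1) := (c4.trans c5.le)
    exact_mod_cast e1
  have c7 : (L : ℝ) ^ D1.card ≤ (2 : ℝ) ^ ((1 : ℝ) / 4) * (2 : ℝ) ^ ((i : ℝ) / 4) := by
    rw [← Real.rpow_add (by norm_num)]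
    rw [← pow_le_pow_iff_left₀ (by positivity) (by positivity) (show (4 : ℕ) ≠ 0 by norm_num)]
    refine c6.trans (le_of_eq ?_)
    rw [← Real.rpow_natCast, ← Real.rpow_natCast, ← Real.rpow_mul (by norm_num)]
    congr 1
    push_cast
    ring
  have c8 : ((𝒟.card : ℕ) : ℝ) ≤ (L : ℝ) ^ n * (L : ℝ) ^ D1.card := by
    have e1 : 𝒟.card ≤ L ^ n * L ^ D1.card := by
      rw [← pow_add]
      exact (c1.trans c2).trans (Nat.pow_le_pow_right hL1 (by omega))
    exact_mod_cast e1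
  calc ((𝒟.card : ℕ) : ℝ) ≤ (L : ℝ) ^ n * (L : ℝ) ^ D1.card := c8
    _ ≤ (L : ℝ) ^ n * ((2 : ℝ) ^ ((1 : ℝ) / 4) * (2 : ℝ) ^ ((i : ℝ) / 4)) :=
        mul_le_mul_of_nonneg_left c7 (by positivity)
    _ = (L : ℝ) ^ n * (2 : ℝ) ^ ((1 : ℝ) / 4) * (2 : ℝ) ^ ((i : ℝ) / 4) := by ring

end Pool.Agent.Helper2.PP
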