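import Pool.Agent.Helper76.PP.Goals3
import Pool.Agent.Helper88.RS.DG1

/-!
# Project PP, packet BDRC

The sum of the reciprocals of the norms of the primes of a finite set.
-/

set_option autoImplicit false

namespace Pool.Agent.Helper2.PP

open NumberField Module IsDedekindDomain
open Pool.Agent.Helper88.RS

section

variable {F : Type} [Field F] [NumberField F]

theorem two_le_norm (v : HeightOneSpectrum (𝓞 F)) : 2 ≤ Ideal.absNorm v.asIdeal := by
  have h0 : Ideal.absNorm v.asIdeal ≠ 0 := by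
    rw [Ne, Ideal.absNorm_eq_zero_iff]
    exact v.ne_bot
  have h1 : Ideal.absNorm v.asIdeal ≠ 1 := by
    rw [Ne, Ideal.absNorm_eq_one_iff]
    exact v.isPrime.ne_top
  omega

theorem lp_le_norm (v : HeightOneSpectrum (𝓞 F)) : lp v ≤ Ideal.absNorm v.asIdeal := by
  have := v.isPrime
  have := lp_liesOver v
  obtain ⟨f, hN⟩ : ∃ f : ℕ, Ideal.absNorm v.asIdeal = lp v ^ f :=
    ⟨_, Ideal.absNorm_eq_pow_inertiaDeg' v.asIdeal (lp_prime v)⟩
  rcases Nat.eq_zero_or_pos f with rfl | hf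
  · have h := two_le_norm v
    rw [hN, pow_zero] at h
    omega
  · rw [hN]
    exact Nat.le_self_pow hf.ne' _

/-- The primes of norm at most `x`. -/
theorem small_sum (T : Finset (HeightOneSpectrum (𝓞 F))) {x : ℝ} (hx : 1 ≤ x)
    (hT : ∀ v ∈ T, (Ideal.absNorm v.asIdeal : ℝ) ≤ x) :
    ∑ v ∈ T, (1 : ℝ) / Ideal.absNorm v.asIdeal ≤ (finrank ℚ F : ℝ) * (1 + Real.log x) := by
  classical
  have hpos : ∀ v : HeightOneSpectrum (𝓞 F), (0 : ℝ) < lp v := fun v => by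
    exact_mod_cast (lp_prime v).pos
  have h1 : ∑ v ∈ T, (1 : ℝ) / Ideal.absNorm v.asIdeal ≤ ∑ v ∈ T, 1 / (lp v : ℝ) := by
    refine Finset.sum_le_sum fun v _ => ?_
    exact one_div_le_one_div_of_le (hpos v) (by exact_mod_cast lp_le_norm v)
  have hmem : ∀ v ∈ T, lp v ∈ Finset.Icc 1 ⌊x⌋₊ := by
    intro v hv
    rw [Finset.mem_Icc]
    refine ⟨(lp_prime v).one_le, Nat.le_floor ?_⟩
    exact le_trans (by exact_mod_cast lp_le_norm v) (hT v hv)
  have h2 : ∑ v ∈ T, 1 / (lp v : ℝ) =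
      ∑ j ∈ Finset.Icc 1 ⌊x⌋₊, ∑ v ∈ T.filter (fun v => lp v = j), 1 / (lp v : ℝ) :=
    (Finset.sum_fiberwise_of_maps_to hmem _).symm
  have h3 : ∀ j ∈ Finset.Icc 1 ⌊x⌋₊, ∑ v ∈ T.filter (fun v => lp v = j), 1 / (lp v : ℝ) ≤
      (finrank ℚ F : ℝ) * (j : ℝ)⁻¹ := by
    intro j _
    have h4 : ∑ v ∈ T.filter (fun v => lp v = j), 1 / (lp v : ℝ) =
        ∑ v ∈ T.filter (fun v => lp v = j), (j : ℝ)⁻¹ := by
      refine Finset.sum_congr rfl fun v hv => ?_
      rw [(Finset.mem_filter.mp hv).2, one_div]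
    rw [h4, Finset.sum_const, nsmul_eq_mul]
    refine mul_le_mul_of_nonneg_right ?_ (by positivity)
    exact_mod_cast card_fibre T j
  have h5 : ∑ j ∈ Finset.Icc 1 ⌊x⌋₊, (j : ℝ)⁻¹ ≤ 1 + Real.log x := by
    have h := harmonic_floor_le_one_add_log x hx
    rw [harmonic_eq_sum_Icc] at h
    push_cast at h
    exact h
  calc ∑ v ∈ T, (1 : ℝ) / Ideal.absNorm v.asIdeal
      ≤ ∑ j ∈ Finset.Icc 1 ⌊x⌋₊, ∑ v ∈ T.filter (fun v => lp v = j), 1 / (lp v : ℝ) :=
        h1.trans_eq h2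
    _ ≤ ∑ j ∈ Finset.Icc 1 ⌊x⌋₊, (finrank ℚ F : ℝ) * (j : ℝ)⁻¹ := Finset.sum_le_sum h3
    _ = (finrank ℚ F : ℝ) * ∑ j ∈ Finset.Icc 1 ⌊x⌋₊, (j : ℝ)⁻¹ := by rw [← Finset.mul_sum]
    _ ≤ (finrank ℚ F : ℝ) * (1 + Real.log x) := mul_le_mul_of_nonneg_left h5 (by positivity)

theorem two_pow_card_le (T : Finset (HeightOneSpectrum (𝓞 F))) :
    2 ^ T.card ≤ ∏ v ∈ T, Ideal.absNorm v.asIdeal := by
  have h := Finset.pow_card_le_prod T (fun v => Ideal.absNorm v.asIdeal) 2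
    (fun v _ => two_le_norm v)
  exact h

end

/-- **B_DRC**. -/
theorem b_drc : Pool.Agent.Helper76.PP.B_DRC := by
  intro K _ _
  classical
  have hd : (0 : ℝ) ≤ (finrank ℚ K : ℝ) := by positivity
  refine ⟨2 + (finrank ℚ K : ℝ), by linarith, fun D => ?_⟩
  set N : ℕ := ∏ v ∈ D, Ideal.absNorm v.asIdeal with hN
  set x : ℝ := Real.log ((N : ℝ) + 3) with hx
  have hN0 : (0 : ℝ) ≤ (N : ℝ) := by positivity
  have hx1 : 1 ≤ x := by
    rw [hx, Real.le_log_iff_exp_le (by linarith)]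
    have := Real.exp_one_lt_d9
    linarith
  have hlx : 0 ≤ Real.log x := Real.log_nonneg hx1
  have hl2 : (1 : ℝ) / 2 ≤ Real.log 2 := by
    have := Real.log_two_gt_d9
    linarith
  -- the number of the primes
  have hcard : (D.card : ℝ) ≤ 2 * x := by
    have h1 : (2 : ℝ) ^ D.card ≤ (N : ℝ) + 3 := by
      have : ((2 ^ D.card : ℕ) : ℝ) ≤ (N : ℝ) := by exact_mod_cast two_pow_card_le D
      push_cast at this
      linarith
    have h2 : (D.card : ℝ) * Real.log 2 ≤ x := by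
      rw [hx, ← Real.log_pow]
      exact Real.log_le_log (by positivity) h1
    have h3 : (D.card : ℝ) * (1 / 2) ≤ (D.card : ℝ) * Real.log 2 :=
      mul_le_mul_of_nonneg_left hl2 (by positivity)
    linarith
  -- the two parts
  rw [← Finset.sum_filter_add_sum_filter_not D
    (fun v => (Ideal.absNorm v.asIdeal : ℝ) ≤ x)]
  have hA := small_sum (D.filter fun v => (Ideal.absNorm v.asIdeal : ℝ) ≤ x) hx1
    (fun v hv => (Finset.mem_filter.mp hv).2)
  have hB : ∑ v ∈ D.filter (fun v => ¬ (Ideal.absNorm v.asIdeal : ℝ) ≤ x),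
      (1 : ℝ) / Ideal.absNorm v.asIdeal ≤ 2 := by
    have h1 : ∑ v ∈ D.filter (fun v => ¬ (Ideal.absNorm v.asIdeal : ℝ) ≤ x),
        (1 : ℝ) / Ideal.absNorm v.asIdeal ≤
        ∑ v ∈ D.filter (fun v => ¬ (Ideal.absNorm v.asIdeal : ℝ) ≤ x), 1 / x := by
      refine Finset.sum_le_sum fun v hv => ?_
      have h2 := (Finset.mem_filter.mp hv).2
      exact one_div_le_one_div_of_le (by linarith) (by linarith)
    rw [Finset.sum_const, nsmul_eq_mul] at h1
    have h3 : ((D.filter (fun v => ¬ (Ideal.absNorm v.asIdeal : ℝ) ≤ x)).card : ℝ) ≤ 2 * x := by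
      refine le_trans ?_ hcard
      exact_mod_cast Finset.card_filter_le _ _
    have h4 : ((D.filter (fun v => ¬ (Ideal.absNorm v.asIdeal : ℝ) ≤ x)).card : ℝ) * (1 / x) ≤
        2 * x * (1 / x) := mul_le_mul_of_nonneg_right h3 (by positivity)
    have h5 : 2 * x * (1 / x) = 2 := by
      field_simp
    linarith
  have h6 : (finrank ℚ K : ℝ) * (1 + Real.log x) + 2 ≤
      2 + (finrank ℚ K : ℝ) + (2 + (finrank ℚ K : ℝ)) * Real.log x := by
    nlinarith
  linarith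

end Pool.Agent.Helper2.PP
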